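import Mathlib

set_option autoImplicit false

namespace Pool.Agent.Results.MP_209e83_co.TypeBEulerianLogConvex

open Finset

/-- The set `{±1, …, ±n}`. -/
def PM (n : ℕ) : Set ℤ := {i | i ≠ 0 ∧ |i| ≤ (n : ℤ)}

/-- Signed permutations of `[n]`: bijections `w` of `{±1, …, ±n}` with `w (-i) = - w i`,
extended by `0` outside `{±1, …, ±n}` (in particular `w 0 = 0`). -/
def SignedPerm (n : ℕ) : Set (ℤ → ℤ) :=
  {w | Set.BijOn w (PM n) (PM n) ∧ (∀ i, w (-i) = - w i) ∧ ∀ i, i ∉ PM n → w i = 0}

/-- Number of type B descents of `w`: indices `i ∈ {0, …, n-1}` with `w i > w (i+1)`. -/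
def desB (n : ℕ) (w : ℤ → ℤ) : ℕ :=
  ((range n).filter (fun i : ℕ => w (i : ℤ) > w ((i : ℤ) + 1))).card

/-- Type B Eulerian numbers: the number of signed permutations of `[n]` with exactly `k`
type B descents. -/
noncomputable def eulerB (n k : ℕ) : ℕ := {w | w ∈ SignedPerm n ∧ desB n w = k}.ncard

/-- A log-convex sequence of nonnegative reals. -/
def LogConvex (a : ℕ → ℝ) : Prop :=
  (∀ k, 0 ≤ a k) ∧ ∀ k, 1 ≤ k → a k ^ 2 ≤ a (k - 1) * a (k + 1)

/-! ### One-line words -/

/-- One-line notation. -/
def LW (n : ℕ) : Set (ℕ → ℤ) :=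
  {v | v 0 = 0 ∧ (∀ i, n < i → v i = 0) ∧
    (∀ i, 1 ≤ i → i ≤ n → 1 ≤ (v i).natAbs ∧ (v i).natAbs ≤ n) ∧
    (∀ i j, 1 ≤ i → i ≤ n → 1 ≤ j → j ≤ n → (v i).natAbs = (v j).natAbs → i = j)}

/-- Descents of words. -/
def desL (n : ℕ) (v : ℕ → ℤ) : ℕ := #{i ∈ range n | v (i + 1) < v i}

/-- Insert the letter `ε (n+1)` right after position `p`. -/
def ins (n p : ℕ) (e : Bool) (v : ℕ → ℤ) : ℕ → ℤ := fun i =>
  if i ≤ p then v i else if i = p + 1 then (if e then (n + 1 : ℤ) else -(n + 1 : ℤ)) else v (i - 1)

theorem ins_le {n p i : ℕ} {e : Bool} {v : ℕ → ℤ} (h : i ≤ p) : ins n p e v i = v i := by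
  simp [ins, h]

theorem ins_new {n p i : ℕ} {e : Bool} {v : ℕ → ℤ} (h : i = p + 1) :
    ins n p e v i = (if e then (n + 1 : ℤ) else -(n + 1 : ℤ)) := by
  subst h
  simp [ins]

theorem ins_gt {n p i j : ℕ} {e : Bool} {v : ℕ → ℤ} (h : p + 1 < i) (hj : i = j + 1) :
    ins n p e v i = v j := by
  subst hj
  unfold ins
  rw [if_neg (by omega), if_neg (by omega)]
  simp

theorem ins_mem {n p : ℕ} {e : Bool} {v : ℕ → ℤ} (hv : v ∈ LW n) (hp : p ≤ n) :
    ins n p e v ∈ LW (n + 1) := by
  obtain ⟨h0, h1, h2, h3⟩ := hv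
  have hnew : ((if e then (n + 1 : ℤ) else -(n + 1 : ℤ))).natAbs = n + 1 := by
    split_ifs <;> omega
  refine ⟨?_, ?_, ?_, ?_⟩
  · simp [ins, h0]
  · intro i hi
    have ha : ¬ i ≤ p := by omega
    have hb : ¬ i = p + 1 := by omega
    simp only [ins, ha, hb, if_false]
    exact h1 _ (by omega)
  · intro i hi1 hi2
    by_cases ha : i ≤ p
    · simp only [ins, ha, if_true]
      have := h2 i hi1 (by omega)
      omega
    · by_cases hb : i = p + 1
      · simp only [ins, ha, hb, if_false, if_true]
        rw [if_neg (by omega)]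
        rw [hnew]; omega
      · simp only [ins, ha, hb, if_false]
        have := h2 (i - 1) (by omega) (by omega)
        omega
  · intro i j hi1 hi2 hj1 hj2 hij
    by_cases ha : i ≤ p
    · by_cases ha' : j ≤ p
      · simp only [ins, ha, ha', if_true] at hij
        exact h3 i j hi1 (by omega) hj1 (by omega) hij
      · by_cases hb' : j = p + 1
        · simp only [ins, ha, ha', if_true, if_false, hb'] at hij
          rw [if_neg (by omega), hnew] at hij
          have := h2 i hi1 (by omega)
          omega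
        · simp only [ins, ha, ha', if_true, if_false, hb'] at hij
          have := h3 i (j - 1) hi1 (by omega) (by omega) (by omega) hij
          omega
    · by_cases hb : i = p + 1
      · by_cases ha' : j ≤ p
        · simp only [ins, ha, ha', if_true, if_false, hb] at hij
          rw [if_neg (by omega), hnew] at hij
          have := h2 j hj1 (by omega)
          omega
        · by_cases hb' : j = p + 1
          · omega
          · simp only [ins, ha, ha', if_true, if_false, hb, hb'] at hij
            rw [if_neg (by omega), hnew] at hij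
            have := h2 (j - 1) (by omega) (by omega)
            omega
      · by_cases ha' : j ≤ p
        · simp only [ins, ha, ha', if_true, if_false, hb] at hij
          have := h3 (i - 1) j (by omega) (by omega) (by omega) (by omega) hij
          omega
        · by_cases hb' : j = p + 1
          · simp only [ins, ha, ha', if_true, if_false, hb, hb'] at hij
            rw [if_neg (by omega), hnew] at hij
            have := h2 (i - 1) (by omega) (by omega)
            omega
          · simp only [ins, ha, ha', if_true, if_false, hb, hb'] at hij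
            have := h3 (i - 1) (j - 1) (by omega) (by omega) (by omega) (by omega) hij
            omega

theorem ins_inj {n p p' : ℕ} {e e' : Bool} {v v' : ℕ → ℤ} (hv : v ∈ LW n) (hv' : v' ∈ LW n)
    (hp : p ≤ n) (hp' : p' ≤ n) (h : ins n p e v = ins n p' e' v') :
    v = v' ∧ p = p' ∧ e = e' := by
  obtain ⟨h0, h1, h2, h3⟩ := hv
  obtain ⟨h0', h1', h2', h3'⟩ := hv'
  have hnew : ∀ e : Bool, ((if e then (n + 1 : ℤ) else -(n + 1 : ℤ))).natAbs = n + 1 := by
    intro e; split_ifs <;> omega
  have hpp : p = p' := by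
    have key := congrFun h (p + 1)
    by_contra hne
    simp only [ins] at key
    rw [if_neg (by omega), if_pos trivial] at key
    have k2 := congrArg Int.natAbs key
    rw [hnew e] at k2
    by_cases hc : p + 1 ≤ p'
    · rw [if_pos hc] at k2
      have := h2' (p + 1) (by omega) (by omega)
      omega
    · rw [if_neg hc, if_neg (by omega)] at k2
      have := h2' (p + 1 - 1) (by omega) (by omega)
      omega
  subst hpp
  refine ⟨?_, rfl, ?_⟩
  · funext i
    by_cases hi : i ≤ p
    · have key := congrFun h i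
      simpa [ins, hi] using key
    · have key := congrFun h (i + 1)
      simp only [ins] at key
      rw [if_neg (by omega), if_neg (by omega), if_neg (by omega), if_neg (by omega)] at key
      simpa using key
  · have key := congrFun h (p + 1)
    simp only [ins] at key
    cases e <;> cases e' <;> simp at key ⊢ <;> omega

theorem ins_surj {n : ℕ} {u : ℕ → ℤ} (hu : u ∈ LW (n + 1)) :
    ∃ v ∈ LW n, ∃ p ≤ n, ∃ e : Bool, ins n p e v = u := by
  obtain ⟨h0, h1, h2, h3⟩ := hu
  have hs : Set.SurjOn (fun i => (u i).natAbs) (Icc 1 (n + 1) : Finset ℕ)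
      (Icc 1 (n + 1) : Finset ℕ) := by
    apply Finset.surjOn_of_injOn_of_card_le
    · intro i hi
      simp only [coe_Icc, Set.mem_Icc] at hi ⊢
      exact h2 i hi.1 hi.2
    · intro i hi j hj hij
      simp only [coe_Icc, Set.mem_Icc] at hi hj
      exact h3 i j hi.1 hi.2 hj.1 hj.2 hij
    · exact le_rfl
  obtain ⟨j, hj, hjn⟩ := hs (show n + 1 ∈ ((Icc 1 (n + 1) : Finset ℕ) : Set ℕ) by simp)
  simp only [coe_Icc, Set.mem_Icc] at hj hjn
  obtain ⟨p, rfl⟩ : ∃ p, j = p + 1 := ⟨j - 1, by omega⟩
  have hother : ∀ i, 1 ≤ i → i ≤ n + 1 → i ≠ p + 1 → (u i).natAbs ≤ n := by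
    intro i hi1 hi2 hne
    have ha := h2 i hi1 hi2
    by_contra hcon
    exact hne (h3 i (p + 1) hi1 hi2 hj.1 hj.2 (by omega))
  refine ⟨fun i => if i ≤ p then u i else u (i + 1), ⟨?_, ?_, ?_, ?_⟩, p, by omega,
    decide (0 < u (p + 1)), ?_⟩
  · simp [h0]
  · intro i hi
    show (if i ≤ p then u i else u (i + 1)) = 0
    rw [if_neg (by omega)]
    exact h1 _ (by omega)
  · intro i hi1 hi2
    by_cases hc : i ≤ p
    · simp only [hc, if_true]
      exact ⟨(h2 i hi1 (by omega)).1, hother i hi1 (by omega) (by omega)⟩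
    · simp only [hc, if_false]
      exact ⟨(h2 (i + 1) (by omega) (by omega)).1, hother (i + 1) (by omega) (by omega) (by omega)⟩
  · intro i k hi1 hi2 hk1 hk2 hik
    by_cases hc : i ≤ p
    · by_cases hc' : k ≤ p
      · simp only [hc, hc', if_true] at hik
        exact h3 i k hi1 (by omega) hk1 (by omega) hik
      · simp only [hc, hc', if_true, if_false] at hik
        have := h3 i (k + 1) hi1 (by omega) (by omega) (by omega) hik
        omega
    · by_cases hc' : k ≤ p
      · simp only [hc, hc', if_true, if_false] at hik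
        have := h3 (i + 1) k (by omega) (by omega) (by omega) (by omega) hik
        omega
      · simp only [hc, hc', if_false] at hik
        have := h3 (i + 1) (k + 1) (by omega) (by omega) (by omega) (by omega) hik
        omega
  · funext i
    simp only [ins]
    by_cases hc : i ≤ p
    · simp [hc]
    · by_cases hb : i = p + 1
      · subst hb
        simp only [hc, if_false, if_true, decide_eq_true_eq]
        split_ifs with h <;> omega
      · simp only [hc, hb, if_false]
        rw [if_neg (by omega)]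
        congr 1
        omega

/-- descents as a sum -/
theorem desL_eq (n : ℕ) (v : ℕ → ℤ) :
    desL n v = ∑ i ∈ range n, (if v (i + 1) < v i then 1 else 0) := by
  rw [desL, Finset.card_filter]

theorem desL_ins {n p : ℕ} {e : Bool} {v : ℕ → ℤ} (hv : v ∈ LW n) (hp : p ≤ n) :
    (p < n → desL (n + 1) (ins n p e v) = desL n v + (if v (p + 1) < v p then 0 else 1)) ∧
    (p = n → desL (n + 1) (ins n p e v) = desL n v + (if e = true then 0 else 1)) := by
  obtain ⟨h0, h1, h2, h3⟩ := hv
  have habs : ∀ i, (v i).natAbs ≤ n := by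
    intro i
    by_cases hi : i = 0
    · subst hi; simp [h0]
    · by_cases hi' : i ≤ n
      · exact (h2 i (by omega) hi').2
      · rw [h1 i (by omega)]; simp
  rw [desL_eq, desL_eq]
  constructor
  · intro hlt
    obtain ⟨m, rfl⟩ : ∃ m, n = p + 1 + m := ⟨n - p - 1, by omega⟩
    have e1 : p + 1 + m + 1 = (p + 1 + 1) + m := by ring
    rw [e1, Finset.sum_range_add, Finset.sum_range_add _ (p + 1) m, Finset.sum_range_succ,
      Finset.sum_range_succ, Finset.sum_range_succ _ p]
    have s1 : ∑ i ∈ range p, (if ins (p + 1 + m) p e v (i + 1) < ins (p + 1 + m) p e v i then 1 else 0)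
        = ∑ i ∈ range p, (if v (i + 1) < v i then 1 else 0) := by
      apply Finset.sum_congr rfl
      intro i hi
      rw [mem_range] at hi
      rw [ins_le (by omega), ins_le (by omega)]
    have s2 : ∑ i ∈ range m, (if ins (p + 1 + m) p e v (p + 1 + 1 + i + 1) <
          ins (p + 1 + m) p e v (p + 1 + 1 + i) then 1 else 0)
        = ∑ i ∈ range m, (if v (p + 1 + i + 1) < v (p + 1 + i) then 1 else 0) := by
      apply Finset.sum_congr rfl
      intro i hi
      rw [mem_range] at hi
      rw [ins_gt (j := p + 1 + i + 1) (by omega) (by omega),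
        ins_gt (j := p + 1 + i) (by omega) (by omega)]
    rw [s1, s2]
    have a1 : ins (p + 1 + m) p e v (p + 1) =
        if e then ((p + 1 + m : ℕ) + 1 : ℤ) else -((p + 1 + m : ℕ) + 1 : ℤ) := by
      simp only [ins]
      rw [if_neg (by omega)]
      simp
    have a2 : ins (p + 1 + m) p e v p = v p := by simp [ins]
    have a3 : ins (p + 1 + m) p e v (p + 1 + 1) = v (p + 1) := by
      simp only [ins]
      rw [if_neg (by omega), if_neg (by omega)]
      simp
    rw [a1, a2, a3]
    have b1 := habs p
    have b2 := habs (p + 1)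
    cases e
    · simp only [Bool.false_eq_true, if_false]
      rw [if_pos (by omega), if_neg (by omega)]
      split_ifs <;> omega
    · simp only [if_true]
      rw [if_neg (by omega), if_pos (by omega)]
      split_ifs <;> omega
  · intro hpn
    subst hpn
    rw [Finset.sum_range_succ]
    have s1 : ∑ i ∈ range p, (if ins p p e v (i + 1) < ins p p e v i then 1 else 0)
        = ∑ i ∈ range p, (if v (i + 1) < v i then 1 else 0) := by
      apply Finset.sum_congr rfl
      intro i hi
      rw [mem_range] at hi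
      rw [ins_le (by omega), ins_le (by omega)]
    rw [s1]
    have a1 : ins p p e v (p + 1) = if e then ((p : ℕ) + 1 : ℤ) else -((p : ℕ) + 1 : ℤ) := by
      simp only [ins]
      rw [if_neg (by omega)]
      simp
    have a2 : ins p p e v p = v p := by simp [ins]
    rw [a1, a2]
    have b1 := habs p
    cases e
    · simp only [Bool.false_eq_true, if_false]
      rw [if_pos (by omega)]
    · simp only [if_true]
      rw [if_neg (by omega)]

open Classical in
/-- the finset of one-line words, built by insertion -/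
noncomputable def LF : ℕ → Finset (ℕ → ℤ)
  | 0 => {0}
  | n + 1 => ((LF n) ×ˢ (range (n + 1) ×ˢ (univ : Finset Bool))).image
      (fun q => ins n q.2.1 q.2.2 q.1)

theorem coe_LF (n : ℕ) : ∀ v, v ∈ LF n ↔ v ∈ LW n := by
  classical
  induction n with
  | zero =>
    intro v
    simp only [LF, mem_singleton]
    constructor
    · rintro rfl
      refine ⟨rfl, fun _ _ => rfl, fun i h1 h2 => by omega, fun i j h1 h2 => by omega⟩
    · rintro ⟨h0, h1, -, -⟩
      funext i
      rcases Nat.eq_zero_or_pos i with rfl | hi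
      · simpa using h0
      · simpa using h1 i hi
  | succ n ih =>
    intro v
    simp only [LF, mem_image, mem_product, mem_range, mem_univ, and_true, Prod.exists]
    constructor
    · rintro ⟨w, p, e, ⟨hw, hp⟩, rfl⟩
      exact ins_mem ((ih w).1 hw) (by omega)
    · intro hv
      obtain ⟨w, hw, p, hp, e, rfl⟩ := ins_surj hv
      exact ⟨w, p, e, ⟨(ih w).2 hw, by omega⟩, rfl⟩

/-- `∑_w f (des w)` over words. -/
noncomputable def Z (n : ℕ) (f : ℕ → ℝ) : ℝ := ∑ v ∈ LF n, f (desL n v)

theorem desL_le (n : ℕ) (v : ℕ → ℤ) : desL n v ≤ n := by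
  have := Finset.card_filter_le (range n) (fun i => v (i + 1) < v i)
  simpa [desL] using this

theorem Z_succ (n : ℕ) (f : ℕ → ℝ) :
    Z (n + 1) f = Z n (fun d => (2 * d + 1) * f d + (2 * n + 1 - 2 * d) * f (d + 1)) := by
  classical
  unfold Z
  simp only [LF]
  rw [Finset.sum_image]
  · rw [Finset.sum_product]
    apply Finset.sum_congr rfl
    intro v hv
    rw [coe_LF] at hv
    rw [Finset.sum_product, Finset.sum_range_succ]
    have hdes : ∀ p < n, ∀ e : Bool, desL (n + 1) (ins n p e v) =
        desL n v + (if v (p + 1) < v p then 0 else 1) := by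
      intro p hp e
      exact (desL_ins hv hp.le).1 hp
    have hdes' : ∀ e : Bool, desL (n + 1) (ins n n e v) =
        desL n v + (if e = true then 0 else 1) := by
      intro e
      exact (desL_ins hv le_rfl).2 rfl
    have h1 : ∑ p ∈ range n, ∑ e : Bool, f (desL (n + 1) (ins n p e v)) =
        ∑ p ∈ range n, 2 * (if v (p + 1) < v p then f (desL n v) else f (desL n v + 1)) := by
      apply Finset.sum_congr rfl
      intro p hp
      rw [mem_range] at hp
      simp only [hdes p hp, Finset.sum_const, Finset.card_univ, Fintype.card_bool]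
      split_ifs <;> simp
    have h2 : ∑ e : Bool, f (desL (n + 1) (ins n n e v)) = f (desL n v) + f (desL n v + 1) := by
      simp [hdes']
    rw [h1, h2, ← Finset.mul_sum, Finset.sum_ite, Finset.sum_const, Finset.sum_const]
    have hc1 : #{x ∈ range n | v (x + 1) < v x} = desL n v := rfl
    have hc2 : (#{x ∈ range n | ¬ v (x + 1) < v x} : ℝ) = n - desL n v := by
      have := Finset.card_filter_add_card_filter_not (s := range n) (fun x => v (x + 1) < v x)
      rw [hc1, card_range] at this
      rw [eq_sub_iff_add_eq, add_comm]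
      exact_mod_cast this
    rw [hc1, nsmul_eq_mul, nsmul_eq_mul, hc2]
    ring
  · rintro ⟨v, p, e⟩ h ⟨v', p', e'⟩ h' heq
    simp only [coe_product, Set.mem_prod, mem_coe, coe_range, Set.mem_Iio,
      coe_univ, Set.mem_univ, and_true] at h h'
    rw [coe_LF] at h h'
    have hp : p < n + 1 := h.2
    have hp' : p' < n + 1 := h'.2
    have heq' : ins n p e v = ins n p' e' v' := heq
    obtain ⟨h1, h2, h3⟩ := ins_inj h.1 h'.1 (by omega) (by omega) heq'
    rw [h1, h2, h3]

theorem Z_nonneg (n : ℕ) (f : ℕ → ℝ) (hf : ∀ d ≤ n, 0 ≤ f d) : 0 ≤ Z n f :=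
  Finset.sum_nonneg fun v _ => hf _ (desL_le n v)

theorem Z_add (n : ℕ) (f g : ℕ → ℝ) : Z n (fun d => f d + g d) = Z n f + Z n g := by
  simp [Z, Finset.sum_add_distrib]

theorem Z_smul (n : ℕ) (c : ℝ) (f : ℕ → ℝ) : Z n (fun d => c * f d) = c * Z n f := by
  simp [Z, Finset.mul_sum]

/-- positive semidefiniteness from log-convexity -/
theorem psd {a b c : ℝ} (ha : 0 ≤ a) (hc : 0 ≤ c) (h : b ^ 2 ≤ a * c) (p q : ℝ) :
    0 ≤ a * p ^ 2 - 2 * b * p * q + c * q ^ 2 := by
  rcases ha.eq_or_lt with rfl | ha
  · have hb : b = 0 := by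
      have : b ^ 2 ≤ 0 := by simpa using h
      nlinarith [sq_nonneg b, pow_eq_zero_iff (two_ne_zero) |>.1 (le_antisymm this (sq_nonneg b))]
    subst hb
    nlinarith [mul_nonneg hc (sq_nonneg q)]
  · have h1 : 0 ≤ a * (a * p ^ 2 - 2 * b * p * q + c * q ^ 2) := by
      have : a * (a * p ^ 2 - 2 * b * p * q + c * q ^ 2) =
          (a * p - b * q) ^ 2 + (a * c - b ^ 2) * q ^ 2 := by ring
      rw [this]
      have := mul_nonneg (sub_nonneg.2 h) (sq_nonneg q)
      nlinarith [sq_nonneg (a * p - b * q)]
    exact nonneg_of_mul_nonneg_right h1 ha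

theorem Z_logconvex {x : ℕ → ℝ} (hx : LogConvex x) (n : ℕ) :
    Z (n + 1) x ^ 2 ≤ Z n x * Z (n + 2) x := by
  obtain ⟨hx0, hx1⟩ := hx
  have key : ∀ l : ℝ, 0 ≤ Z n x * (l * l) + (-2 * Z (n + 1) x) * l + Z (n + 2) x := by
    intro l
    rw [show n + 2 = (n + 1) + 1 from rfl, Z_succ (n + 1) x, Z_succ n x, Z_succ n]
    have : Z n x * (l * l) + (-2 * Z n (fun d => (2 * d + 1) * x d +
        (2 * n + 1 - 2 * d) * x (d + 1))) * l +
        Z n (fun d => (2 * d + 1) * ((2 * d + 1) * x d + (2 * (n + 1 : ℕ) + 1 - 2 * d) * x (d + 1))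
          + (2 * n + 1 - 2 * d) * ((2 * (d + 1 : ℕ) + 1) * x (d + 1) +
            (2 * (n + 1 : ℕ) + 1 - 2 * (d + 1 : ℕ)) * x (d + 1 + 1))) =
        Z n (fun d => (x d * (l - (2 * d + 1)) ^ 2 - 2 * x (d + 1) * (l - (2 * d + 1)) *
          (2 * n + 1 - 2 * d) + x (d + 2) * (2 * n + 1 - 2 * d) ^ 2) +
          4 * (n + 1) * x (d + 1)) := by
      unfold Z
      rw [Finset.sum_mul, Finset.mul_sum, Finset.sum_mul, ← Finset.sum_add_distrib,
        ← Finset.sum_add_distrib]
      apply Finset.sum_congr rfl
      intro v _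
      push_cast
      ring
    rw [this]
    apply Z_nonneg
    intro d _
    have h1 := psd (hx0 d) (hx0 (d + 2)) (by simpa using hx1 (d + 1) (by omega))
      (l - (2 * d + 1)) (2 * n + 1 - 2 * d)
    have h2 : 0 ≤ 4 * ((n : ℝ) + 1) * x (d + 1) := by
      have := hx0 (d + 1)
      positivity
    linarith
  have := discrim_le_zero key
  unfold discrim at this
  nlinarith

/-! ### From signed permutations to words -/

theorem mem_PM {n : ℕ} {i : ℤ} : i ∈ PM n ↔ i ≠ 0 ∧ i.natAbs ≤ n := by
  unfold PM
  simp only [Set.mem_ofPred_eq]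
  constructor
  · rintro ⟨h1, h2⟩
    refine ⟨h1, ?_⟩
    rw [abs_le] at h2
    omega
  · rintro ⟨h1, h2⟩
    refine ⟨h1, ?_⟩
    rw [abs_le]
    omega

/-- restriction to positive integers -/
def toWord (w : ℤ → ℤ) : ℕ → ℤ := fun i => w (i : ℤ)

theorem toWord_bij (n : ℕ) : Set.BijOn toWord (SignedPerm n) (LW n) := by
  refine ⟨?_, ?_, ?_⟩
  · rintro w ⟨hb, hodd, hz⟩
    refine ⟨?_, ?_, ?_, ?_⟩
    · exact hz _ (by rw [mem_PM]; simp)
    · intro i hi
      exact hz _ (by rw [mem_PM]; omega)
    · intro i hi1 hi2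
      have := hb.mapsTo (show (i : ℤ) ∈ PM n by rw [mem_PM]; omega)
      rw [mem_PM] at this
      simp only [toWord]
      omega
    · intro i j hi1 hi2 hj1 hj2 hij
      simp only [toWord] at hij
      have hi : (i : ℤ) ∈ PM n := by rw [mem_PM]; omega
      have hj : (j : ℤ) ∈ PM n := by rw [mem_PM]; omega
      have hj' : -(j : ℤ) ∈ PM n := by rw [mem_PM]; omega
      rcases Int.natAbs_eq_natAbs_iff.1 hij with h | h
      · have := hb.injOn hi hj h
        omega
      · rw [← hodd] at h
        have := hb.injOn hi hj' h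
        omega
  · rintro w ⟨hb, hodd, hz⟩ w' ⟨hb', hodd', hz'⟩ h
    funext i
    rcases le_total 0 i with hi | hi
    · obtain ⟨k, rfl⟩ := Int.eq_ofNat_of_zero_le hi
      exact congrFun h k
    · obtain ⟨k, hk⟩ := Int.eq_ofNat_of_zero_le (neg_nonneg.2 hi)
      have h1 : i = -(k : ℤ) := by omega
      rw [h1, hodd, hodd']
      exact congrArg _ (congrFun h k)
  · intro v hv
    obtain ⟨h0, h1, h2, h3⟩ := hv
    set w : ℤ → ℤ := fun i => if 0 ≤ i then v i.natAbs else - v i.natAbs with hw
    have hodd : ∀ i, w (-i) = - w i := by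
      intro i
      simp only [hw, Int.natAbs_neg]
      rcases lt_trichotomy i 0 with h | h | h
      · rw [if_pos (by omega), if_neg (by omega)]; ring
      · subst h; simp [h0]
      · rw [if_neg (by omega), if_pos (by omega)]
    have habs : ∀ i, (w i).natAbs = (v i.natAbs).natAbs := by
      intro i
      simp only [hw]
      split_ifs <;> simp
    have hz : ∀ i, i ∉ PM n → w i = 0 := by
      intro i hi
      rw [mem_PM] at hi
      have hvi : v i.natAbs = 0 := by
        by_cases hi0 : i = 0
        · subst hi0; simpa using h0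
        · apply h1; push Not at hi; exact hi hi0
      simp [hw, hvi]
    have hmaps : Set.MapsTo w (PM n) (PM n) := by
      intro i hi
      rw [mem_PM] at hi ⊢
      have := h2 i.natAbs (by omega) hi.2
      have h4 := habs i
      constructor
      · intro h5
        rw [h5] at h4
        simp at h4
        omega
      · omega
    have hinj : Set.InjOn w (PM n) := by
      intro i hi j hj hij
      rw [mem_PM] at hi hj
      have h4 : (v i.natAbs).natAbs = (v j.natAbs).natAbs := by
        rw [← habs, ← habs, hij]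
      have h5 := h3 _ _ (by omega) hi.2 (by omega) hj.2 h4
      have h6 := h2 i.natAbs (by omega) hi.2
      rcases Int.natAbs_eq_natAbs_iff.1 h5 with h | h
      · exact h
      · exfalso
        rw [h, hodd] at hij
        have h7 : w j = 0 := by omega
        have h8 := habs j
        rw [h7] at h8
        simp only [Int.natAbs_zero] at h8
        have h9 := h2 j.natAbs (by omega) hj.2
        omega
    have hfin : ((Icc (-(n : ℤ)) n).erase 0 : Set ℤ) = PM n := by
      ext i
      simp only [coe_erase, coe_Icc, Set.mem_sdiff, Set.mem_Icc, Set.mem_singleton_iff, mem_PM]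
      omega
    have hsurj : Set.SurjOn w (PM n) (PM n) := by
      rw [← hfin] at hmaps hinj ⊢
      have := Finset.surjOn_of_injOn_of_card_le (s := (Icc (-(n : ℤ)) n).erase 0)
        (t := (Icc (-(n : ℤ)) n).erase 0) w (by simpa using hmaps) (by simpa using hinj) le_rfl
      simpa using this
    refine ⟨w, ⟨⟨hmaps, hinj, hsurj⟩, hodd, hz⟩, ?_⟩
    funext i
    simp [toWord, hw]

theorem desB_toWord (n : ℕ) (w : ℤ → ℤ) : desL n (toWord w) = desB n w := by
  unfold desL desB toWord
  congr 1

theorem eulerB_eq (n k : ℕ) : eulerB n k = #{v ∈ LF n | desL n v = k} := by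
  classical
  have h1 : toWord '' {w | w ∈ SignedPerm n ∧ desB n w = k} =
      (({v ∈ LF n | desL n v = k} : Finset (ℕ → ℤ)) : Set (ℕ → ℤ)) := by
    ext v
    simp only [Set.mem_image, Set.mem_ofPred_eq, coe_filter, coe_LF]
    constructor
    · rintro ⟨w, ⟨hw, hd⟩, rfl⟩
      exact ⟨(toWord_bij n).mapsTo hw, by rw [desB_toWord]; exact hd⟩
    · rintro ⟨hv, hd⟩
      obtain ⟨w, hw, rfl⟩ := (toWord_bij n).surjOn hv
      exact ⟨w, ⟨hw, by rw [← desB_toWord]; exact hd⟩, rfl⟩
  rw [eulerB, ← ((toWord_bij n).injOn.mono (fun w hw => hw.1)).ncard_image, h1,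
    Set.ncard_coe_finset]

theorem transform_eq (n : ℕ) (x : ℕ → ℝ) :
    ∑ k ∈ range (n + 1), (eulerB n k : ℝ) * x k = Z n x := by
  classical
  unfold Z
  have h : ∀ v ∈ LF n, desL n v ∈ range (n + 1) := by
    intro v _
    rw [mem_range]
    exact Nat.lt_succ_of_le (desL_le n v)
  rw [← Finset.sum_fiberwise_of_maps_to h]
  apply Finset.sum_congr rfl
  intro k _
  rw [eulerB_eq]
  rw [Finset.sum_congr rfl (g := fun _ => x k)]
  · rw [Finset.sum_const, nsmul_eq_mul]
  · intro v hv
    rw [mem_filter] at hv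
    rw [hv.2]

/-- **The type B Eulerian transformation preserves log-convexity.** -/
theorem result : ∀ x : ℕ → ℝ, LogConvex x →
    LogConvex (fun n => ∑ k ∈ range (n + 1), (eulerB n k : ℝ) * x k) := by
  intro x hx
  refine ⟨?_, ?_⟩
  · intro n
    exact Finset.sum_nonneg fun k _ => mul_nonneg (Nat.cast_nonneg _) (hx.1 k)
  · intro n hn
    obtain ⟨m, rfl⟩ : ∃ m, n = m + 1 := ⟨n - 1, by omega⟩
    simp only [transform_eq, Nat.add_sub_cancel]
    exact Z_logconvex hx m

end Pool.Agent.Results.MP_209e83_co.TypeBEulerianLogConvex
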